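import Pool.Agent.NCMk.MAIN

/-!
# Noether's problem for the alternating groups

For every field `k` of characteristic zero (in particular for `k = ℂ`) and every `n` the field of
invariants `k(x_1, ..., x_n)^{A_n}` is purely transcendental over `k`: it is generated over `k` by
`n` algebraically independent elements.
-/

open IntermediateField Pool.Agent.NCMk

namespace Pool.Agent.Results.MP_ffe2f0_al.NoetherAlternating

theorem result (k : Type) [Field k] [CharZero k] (n : ℕ) :
    ∃ y : Fin n → RatF k (Fin n), AlgebraicIndependent k y ∧
      adjoin k (Set.range y) = invField k (alternatingGroup (Fin n)) :=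
  main k n

end Pool.Agent.Results.MP_ffe2f0_al.NoetherAlternating
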