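import Pool.Agent.Lib_helper20.Noether.FINAL
import Pool.Agent.Lib_helper20.Noether.BASE
import Pool.Agent.Lib_helper20.Noether.RADI
import Pool.Agent.Lib_helper20.Noether.VAND
import Pool.Agent.Lib_helper20.Noether.COUNT
import Pool.Agent.Lib_helper20.Noether.ARTIN
import Pool.Agent.Lib_helper20.Noether.CRIT
import Pool.Agent.Lib_helper20.Noether.PUSH
import Pool.Agent.Lib_helper20.Noether.EMB
import Pool.Agent.Lib_helper20.Noether.INDEP
import Pool.Agent.Lib_helper20.Noether.CARD
import Pool.Agent.Lib_helper20.Noether.CARDD
import Pool.Agent.Lib_helper20.Noether.SIGN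
import Pool.Agent.Lib_helper20.Noether.STEPQ
import Pool.Agent.Lib_helper20.Noether.STEPN
import Pool.Agent.Lib_helper20.Noether.STEPD
import Pool.Agent.Lib_helper20.Noether.TRANS
import Pool.Agent.Lib_helper20.Noether.SYL

/-!
# Noether's problem for alternating groups: rational extensions of degree prime to `p`

For every `n` and every prime `p`, the field of invariants of every Sylow `p`-subgroup `P` of the
alternating group `A_n` in `ℂ(x_1, ..., x_n)` is purely transcendental; it contains the field
`K_n` of invariants of `A_n`, and its degree over `K_n` is finite and prime to `p`.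
-/

open Pool.Agent.Lib_helper20.Noether IntermediateField

namespace Pool.Agent.Results.MP_ffe2f0_al.SylowRational

theorem result (n p : ℕ) (hp : p.Prime) (P : Sylow p (alternatingGroup (Fin n))) :
    PurelyTranscendental
        (invField ((P : Subgroup (alternatingGroup (Fin n))).map
          (alternatingGroup (Fin n)).subtype)) ∧
      invField (alternatingGroup (Fin n)) ≤
        invField ((P : Subgroup (alternatingGroup (Fin n))).map
          (alternatingGroup (Fin n)).subtype) ∧
      ∃ r : ℕ, relfinrank (invField (alternatingGroup (Fin n)))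
        (invField ((P : Subgroup (alternatingGroup (Fin n))).map
          (alternatingGroup (Fin n)).subtype)) = r ∧ r ≠ 0 ∧ ¬ p ∣ r := by
  have hA := ARTIN_thm
  have hC := CRIT_thm hA
  have hP := PUSH_thm BASE_thm hA
  have hQ := STEPQ_thm hP RADI_thm VAND_thm hC EMB_thm INDEP_thm CARD_thm
  have hN := STEPN_thm hP RADI_thm VAND_thm hC EMB_thm INDEP_thm CARD_thm
  have hD := STEPD_thm hP RADI_thm VAND_thm hC EMB_thm INDEP_thm CARDD_thm
  have hS := SYL_thm hQ hN hD TRANS_thm CARD_thm CARDD_thm SIGN_thm
  exact FINAL_thm hA COUNT_thm TRANS_thm hS n p hp P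

end Pool.Agent.Results.MP_ffe2f0_al.SylowRational
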